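import Pool.Agent.H96Z.BG.Final

set_option autoImplicit false

/-!
# Appending a distinguished involution: a counterexample

Let `(W, S)` be of type `A~_1 × A~_1 × A~_1` with generators `a_j, b_j` (`j = 0, 1, 2`).  Take
`w = v_0 = a_0 a_1 a_2`, `u = v_1 = b_1 b_2`, `x = y = e`.  Then `a(u) = 2 < 3 = a(v_0) = a(w u)`,
and `μ(w, w u v_{01}⁻¹) = 0` for every suffix `v_{01}` of `v_0`.
-/

namespace Pool.Agent.Results.MP_28e63a_al.MuVanishes

open Module Polynomial Pool.Agent.Helper703.KL Pool.Agent.H96Z.BG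

/-- First part: the Hecke algebra of type `A~_1 × A~_1 × A~_1`, its bar involution, its
Kazhdan-Lusztig polynomials and basis exist.  Second part: for every Coxeter system of this type
and all such data, there are `w, y, v_0, u, x, v_1, w'` satisfying all the hypotheses of the
question such that `μ(w, w' v_{01}⁻¹) = 0` whenever `v_0 = v_0'.v_{01}`. -/
theorem result :
    (∃ (H : Type) (_ : Ring H) (_ : Algebra A H) (T : Basis cube.Group A H) (bar : H →+* H)
      (P : cube.Group → cube.Group → ℤ[X]) (C : Basis cube.Group A H),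
        IsHecke cube.toCoxeterSystem T ∧ IsBar cube.toCoxeterSystem T bar ∧
        IsKLData cube.toCoxeterSystem T bar P C) ∧
    (∀ (W : Type) [Group W] (cs : CoxeterSystem cube W) (H : Type) [Ring H] [Algebra A H]
      (T : Basis W A H) (bar : H →+* H) (P : W → W → ℤ[X]) (C : Basis W A H),
      IsHecke cs T → IsBar cs T bar → IsKLData cs T bar P C →
      ∃ w y v₀ u x v₁ w' : W,
        Red2 cs w y v₀ ∧ MaxBruhat cs w y v₀ 1 ∧
        Red3 cs u x v₁ x⁻¹ ∧ IsDist cs P C u ∧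
        (IsDist cs P C v₁ ∧ ∃ z p r : W, FinFact cs z p v₁ r) ∧ v₁ ≠ 1 ∧
        aFn C u < aFn C v₀ ∧ Red2 cs w' w u ∧ aFn C w' = aFn C w ∧
        ∀ v₀' v₀₁ : W, Red2 cs v₀ v₀' v₀₁ → muKL cs P w (w' * v₀₁⁻¹) = 0) := by
  refine ⟨?_, ?_⟩
  · obtain ⟨T, bar, P, C, h⟩ := exists_data cube.toCoxeterSystem
    exact ⟨HT cube.toCoxeterSystem, inferInstance, inferInstance, T, bar, P, C, h⟩
  · intro W _ cs H _ _ T bar P C hT hb hK
    have hw := len_w (cs := cs)
    have hu := len_u (cs := cs)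
    have hwu := len_wu (cs := cs)
    refine ⟨cs.wordProd l0, 1, cs.wordProd l0, cs.wordProd l1, 1, cs.wordProd l1,
      cs.wordProd l0 * cs.wordProd l1, ⟨by simp, by simp⟩, ⟨⟨⟨by simp, by simp⟩, finPar_w⟩, ?_⟩,
      ⟨by simp, by simp⟩, dist_u hT hb hK,
      ⟨dist_u hT hb hK, cs.wordProd l1, 1, 1, ⟨by simp, by simp⟩, finPar_u⟩, ?_, ?_,
      ⟨rfl, by omega⟩, ?_, ?_⟩
    · rintro ⟨x', u', y', p, r, h1, _, _, _, h5⟩
      have := h1.1.2
      omega
    · intro h
      rw [h, cs.length_one] at hu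
      omega
    · rw [a_u hT hb hK, a_w hT hb hK]
      decide
    · rw [a_wu hT hb hK, a_w hT hb hK]
    · intro v₀' v₀₁ h
      exact mu_zero hT hb hK v₀₁ (K8_suffix cs _ _ v₀' v₀₁ rfl h K8_w)

end Pool.Agent.Results.MP_28e63a_al.MuVanishes
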